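import Pool.Agent.Q65.LK.HS1
import Pool.Agent.Q283.EN.Stm

/-!
# Project EN (helper283), job HS12: the local symbols for `p = 2` (the proof of helper65 for odd `p`, adapted)
-/

set_option autoImplicit false

namespace Pool.Agent.Q190.EN

open NumberField IsDedekindDomain Pool.Agent.Q7.LK Function
open Pool.Agent.Q65.LK hiding hs1
open Pool.Agent.Q283.EN

/-- the local symbols: general form -/
theorem hs1_gen (hB : S_BAS) (p : ℕ) [Fact p.Prime] (F : Type) [Field F] [NumberField F] (ζ : F)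
    (hζ : IsPrimitiveRoot ζ p) (hA : P_HS1A p F ζ) (hN : P_HS1N p F ζ) : P_HS1 p F ζ := by
  classical
  intro c hc
  by_cases hpow : IsPow p c
  · -- the trivial case
    obtain ⟨x, rfl⟩ := hpow
    have hx : x ≠ 0 := by
      rintro rfl
      apply hc
      rw [zero_pow (Fact.out : p.Prime).ne_zero]
    refine ⟨fun _ _ => 0, fun _ _ _ _ _ => (add_zero 0).symm, fun a _ => ⟨?_, finsum_zero⟩,
      fun _ _ _ => rfl, ?_, fun _ _ _ _ _ _ _ _ => rfl⟩
    · refine Set.finite_empty.subset fun v hv => ?_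
      exact hv rfl
    · intro v hv h0 a _
      have h1 := ((hB p F v).2.2.2.2.2.2 hv ζ hζ).2.2.2 (x ^ p) hc h0
      rw [h1.2 ((hB p F v).2.2.1 x hx), mul_zero]
  obtain ⟨hR, k, hk⟩ := hA c hc hpow
  set R : Set (HeightOneSpectrum (𝓞 F)) := {v | Dp p v ∨ vl p v c ≠ 0} with hRdef
  have hk' : ∀ x : F, x ≠ 0 → (∀ v ∈ R, Cl k v x) → ph p ζ c x = 0 := by
    intro x hx h
    rw [← ph_eq]
    exact (hk x hx fun v hv => h v hv).2
  -- the approximations
  have hapx : ∀ (v : HeightOneSpectrum (𝓞 F)) (a : F), ∃ e : F, v ∈ R → a ≠ 0 →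
      e ≠ 0 ∧ Cl k v (e / a) ∧ ∀ w ∈ R, w ≠ v → Cl k w e := by
    intro v a
    by_cases h : v ∈ R ∧ a ≠ 0
    · obtain ⟨e, he⟩ := exists_apx R hR v h.1 a h.2 k
      exact ⟨e, fun _ _ => he⟩
    · exact ⟨0, fun h1 h2 => absurd ⟨h1, h2⟩ h⟩
  choose E hE using hapx
  let τ : HeightOneSpectrum (𝓞 F) → F → ZMod p := fun v a =>
    if v ∈ R then - ph p ζ c (E v a) else vl p v a * sy p ζ v c
  have hτ1 : ∀ v, v ∈ R → ∀ a, τ v a = - ph p ζ c (E v a) := fun v hv a => if_pos hv
  have hτ2 : ∀ v, v ∉ R → ∀ a, τ v a = vl p v a * sy p ζ v c := fun v hv a => if_neg hv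
  -- independence of the approximation
  have key : ∀ v ∈ R, ∀ a : F, a ≠ 0 → ∀ e : F, e ≠ 0 → Cl k v (e / a) →
      (∀ w ∈ R, w ≠ v → Cl k w e) → τ v a = - ph p ζ c e := by
    intro v hv a ha e he h1 h2
    rw [hτ1 v hv]
    obtain ⟨h3, h4, h5⟩ := hE v a hv ha
    have h6 : ph p ζ c (E v a * e⁻¹) = 0 := by
      refine hk' _ (mul_ne_zero h3 (inv_ne_zero he)) fun w hw => ?_
      by_cases hwv : w = v
      · subst hwv
        have h7 : E w a * e⁻¹ = (E w a / a) * (e / a)⁻¹ := by field_simp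
        rw [h7]
        exact h4.mul h1.inv
      · exact (h5 w hw hwv).mul (h2 w hw hwv).inv
    have h8 := ph_mul p hB ζ c (E v a * e⁻¹) e (mul_ne_zero h3 (inv_ne_zero he)) he
    rw [h6, zero_add] at h8
    have h9 : E v a * e⁻¹ * e = E v a := by field_simp
    rw [h9] at h8
    rw [h8]
  have hmul : ∀ v a b, a ≠ 0 → b ≠ 0 → τ v (a * b) = τ v a + τ v b := by
    intro v a b ha hb
    by_cases hv : v ∈ R
    · obtain ⟨h3, h4, h5⟩ := hE v a hv ha
      obtain ⟨h6, h7, h8⟩ := hE v b hv hb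
      rw [key v hv (a * b) (mul_ne_zero ha hb) (E v a * E v b) (mul_ne_zero h3 h6) ?_ ?_,
        ph_mul p hB ζ c _ _ h3 h6, hτ1 v hv, hτ1 v hv]
      · ring
      · have h9 : E v a * E v b / (a * b) = (E v a / a) * (E v b / b) := by field_simp
        rw [h9]
        exact h4.mul h7
      · exact fun w hw hwv => (h5 w hw hwv).mul (h8 w hw hwv)
    · rw [hτ2 v hv, hτ2 v hv, hτ2 v hv, (hB p F v).2.2.2.2.1 a b ha hb]
      ring
  have hsum : ∀ a, a ≠ 0 → {v | τ v a ≠ 0}.Finite ∧ ∑ᶠ v, τ v a = 0 := by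
    intro a ha
    have hfin : {v | τ v a ≠ 0}.Finite := by
      refine (hR.union (fin_vl p a ha)).subset fun v hv => ?_
      by_cases h : v ∈ R
      · exact Or.inl h
      · refine Or.inr fun h0 => hv ?_
        rw [hτ2 v h, h0, zero_mul]
    refine ⟨hfin, ?_⟩
    have h1 : ∀ v, τ v a = (if v ∈ R then τ v a else 0) + gg p ζ c v a := by
      intro v
      unfold gg
      by_cases h : v ∈ R
      · have h' : Dp p v ∨ vl p v c ≠ 0 := h
        rw [if_pos h, if_pos h', add_zero]
      · have h' : ¬ (Dp p v ∨ vl p v c ≠ 0) := h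
        rw [if_neg h, if_neg h', zero_add, hτ2 v h]
    have hs1 : (support fun v => if v ∈ R then τ v a else 0) ⊆ (hR.toFinset : Set _) := by
      intro v hv
      rw [Set.Finite.coe_toFinset]
      by_contra h
      apply hv
      exact if_neg h
    rw [finsum_congr h1, finsum_add_distrib ((Finset.finite_toSet _).subset hs1) (gg_fin p ζ c a ha),
      finsum_eq_sum_of_support_subset _ hs1]
    have h2 : ∑ v ∈ hR.toFinset, (if v ∈ R then τ v a else 0) =
        - ph p ζ c (∏ v ∈ hR.toFinset, E v a) := by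
      rw [ph_prod p hB ζ c _ _ fun v hv => (hE v a (hR.mem_toFinset.1 hv) ha).1,
        ← Finset.sum_neg_distrib]
      refine Finset.sum_congr rfl fun v hv => ?_
      rw [if_pos (hR.mem_toFinset.1 hv), hτ1 v (hR.mem_toFinset.1 hv)]
    have h3 : ∏ v ∈ hR.toFinset, E v a ≠ 0 :=
      Finset.prod_ne_zero_iff.2 fun v hv => (hE v a (hR.mem_toFinset.1 hv) ha).1
    have h4 : ph p ζ c (a * (∏ v ∈ hR.toFinset, E v a)⁻¹) = 0 := by
      refine hk' _ (mul_ne_zero ha (inv_ne_zero h3)) fun w hw => ?_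
      have hw' : w ∈ hR.toFinset := hR.mem_toFinset.2 hw
      have h5 : a * (∏ v ∈ hR.toFinset, E v a)⁻¹ =
          ((E w a / a) * ∏ v ∈ hR.toFinset.erase w, E v a)⁻¹ := by
        rw [← Finset.mul_prod_erase _ _ hw']
        field_simp
      rw [h5]
      refine Cl.inv (((hE w a hw ha).2.1).mul (Cl.prod _ _ fun v hv => ?_))
      rw [Finset.mem_erase] at hv
      exact (hE v a (hR.mem_toFinset.1 hv.2) ha).2.2 w hw fun h => hv.1 h.symm
    have h6 := ph_mul p hB ζ c (a * (∏ v ∈ hR.toFinset, E v a)⁻¹) (∏ v ∈ hR.toFinset, E v a)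
      (mul_ne_zero ha (inv_ne_zero h3)) h3
    have h7 : a * (∏ v ∈ hR.toFinset, E v a)⁻¹ * (∏ v ∈ hR.toFinset, E v a) = a := by
      field_simp
    rw [h7, h4, zero_add] at h6
    rw [h2]
    show - ph p ζ c (∏ v ∈ hR.toFinset, E v a) + ph p ζ c a = 0
    rw [h6, neg_add_cancel]
  have hpw : ∀ v a, Lpw p v a → τ v a = 0 := by
    intro v a hva
    have ha : a ≠ 0 := ((hB p F v).1 a hva).1
    by_cases hv : v ∈ R
    · obtain ⟨x, hx⟩ := hva k
      have hx0 : x ≠ 0 := by
        rintro rfl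
        rw [zero_pow (Fact.out : p.Prime).ne_zero, mul_zero, zero_sub, Valuation.map_neg, map_one,
          ← WithZero.exp_zero, WithZero.exp_lt_exp] at hx
        omega
      have hpowτ : ∀ n : ℕ, τ v (x ^ n) = n * τ v x := by
        intro n
        induction n with
        | zero =>
          have h := hmul v 1 1 one_ne_zero one_ne_zero
          rw [mul_one] at h
          rw [pow_zero, Nat.cast_zero, zero_mul]
          exact left_eq_add.1 h
        | succ n ih =>
          rw [pow_succ, hmul v _ _ (pow_ne_zero _ hx0) hx0, ih]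
          push_cast
          ring
      have hax : a * x ^ p ≠ 0 := mul_ne_zero ha (pow_ne_zero _ hx0)
      have h1 : τ v (a * x ^ p) = - ph p ζ c 1 := by
        refine key v hv _ hax 1 one_ne_zero ?_ fun w _ _ => Cl.one k w
        rw [one_div]
        exact Cl.inv hx
      rw [ph_one p hB, neg_zero, hmul v _ _ ha (pow_ne_zero _ hx0), hpowτ p, CharP.cast_eq_zero,
        zero_mul, add_zero] at h1
      exact h1
    · rw [hτ2 v hv, ((hB p F v).1 a hva).2, zero_mul]
  refine ⟨τ, hmul, hsum, hpw, ?_, ?_⟩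
  · intro v hv h0 a _
    refine hτ2 v ?_ a
    rintro (h | h)
    · exact hv h
    · exact h h0
  · intro M _ _ _ hM y hy
    have hfd : Module.Finite F M := by
      apply Module.finite_of_finrank_pos
      rw [hM.deg]
      exact (Fact.out : p.Prime).pos
    -- outside R
    have hout : ∀ (z : M), z ≠ 0 → ∀ v, v ∉ R → vl p v (Algebra.norm F z) * sy p ζ v c = 0 := by
      intro z hz v hv
      by_cases hs : sy p ζ v c = 0
      · rw [hs, mul_zero]
      · have h1 : ¬ Dp p v := fun h => hv (Or.inl h)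
        have h2 : vl p v c = 0 := by
          by_contra h
          exact hv (Or.inr h)
        rw [hN M c hc hM v h1 h2 hs z hz, zero_mul]
    intro v
    by_cases hv : v ∈ R
    · obtain ⟨z, hz, hz0, hz1, hz2⟩ := norm_apx M R hR v hv y hy k
      have hNy : Algebra.norm F y ≠ 0 := (Algebra.norm_ne_zero_iff (R := F) (S := M)).2 hy
      rw [key v hv _ hNy _ hz0 hz1 hz2]
      have h3 : ph p ζ c (Algebra.norm F z) = 0 := by
        unfold ph
        have h4 : ∀ w, gg p ζ c w (Algebra.norm F z) = 0 := by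
          intro w
          unfold gg
          by_cases hw : Dp p w ∨ vl p w c ≠ 0
          · rw [if_pos hw]
          · rw [if_neg hw]
            exact hout z hz w hw
        rw [finsum_congr h4, finsum_zero]
      rw [h3, neg_zero]
    · rw [hτ2 v hv]
      exact hout y hy v hv

/-- **HS12** -/
theorem hs12 (hB : S_BAS) (hA : S_HS1A2) (hN : S_HS1N2) : S_HS12 := by
  intro F _ _ i ζ hi hζ
  exact hs1_gen hB 2 F ζ hζ (hA F i ζ hi hζ) (hN F i ζ hi hζ)

end Pool.Agent.Q190.EN

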