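import Pool.Agent.Q283.EN.Stm
import Pool.Agent.Q208.LQ.Bas
import Pool.Agent.Q96.LQ.LOC

/-!
# Project EN (helper283), job LOC2: the number of the local classes for `p = 2`
-/

set_option autoImplicit false

namespace Pool.Agent.Q190.EN

open NumberField IsDedekindDomain
open Pool.Agent.Q283.LQ (Sm nS)
open Pool.Agent.Q7.LK
open Pool.Agent.Q283.EN

/-- **LOC2** -/
theorem loc2 : S_LOC2 := by
  intro F _ _ i hi y hy
  obtain ⟨h1, h2⟩ := Pool.Agent.Q96.LQ.loc Pool.Agent.Q208.LQ.bas F y hy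
  refine ⟨h1, fun B hB hB' => ?_⟩
  have hnr : InfinitePlace.nrRealPlaces F = 0 := by
    rw [nrRealPlaces_eq_zero_iff]
    refine ⟨fun w => ?_⟩
    rw [← InfinitePlace.not_isReal_iff_isComplex]
    intro hw
    have h3 : (InfinitePlace.embedding_of_isReal hw i) ^ 2 = -1 := by
      rw [← map_pow, hi, map_neg, map_one]
    nlinarith [sq_nonneg (InfinitePlace.embedding_of_isReal hw i)]
  have h3 := h2 B hB ?_
  · rw [hnr, add_zero] at h3
    exact h3
  · intro b hb b' hb' hne hN
    have hb0 := hB b hb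
    have hb0' := hB b' hb'
    apply hB' b hb b' hb' hne
    refine ⟨div_ne_zero hb0 hb0', fun v hv n => ?_⟩
    obtain ⟨x, hx⟩ := hN.2.1 v hv n
    refine ⟨b' * x, ?_⟩
    have e : b / b' * (b' * x) ^ 2 = b * b' * x ^ 2 := by
      field_simp
    rw [e]
    exact hx

end Pool.Agent.Q190.EN
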