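import Pool.Agent.Q241.LK.REC
import Pool.Agent.Q283.EN.Stm

/-!
# Project EN (helper283), job REC2: the law of reciprocity for `p = 2` (the proof of helper241 for odd `p`, adapted)
-/

set_option autoImplicit false

namespace Pool.Agent.Q190.EN

open NumberField IsDedekindDomain
open Pool.Agent.Q283.LQ (Sm)
open Pool.Agent.Q7.LK
open Pool.Agent.Q241.LK (vl_one fin_vl)
open Pool.Agent.Q283.EN

/-- the law of reciprocity from the Hilbert symbols -/
theorem rec_gen (p : ℕ) [Fact p.Prime] (F : Type) [Field F] [NumberField F] (ζ : F)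
    (t : HeightOneSpectrum (𝓞 F) → F → F → ZMod p) (ht : Hilb p ζ t) : P_REC p F ζ := by
  intro y hy b c hb hc huv hN
  obtain ⟨h1, h2, h3, h4, h5, -⟩ := ht
  have hD : ∀ v : HeightOneSpectrum (𝓞 F), ¬ Sm y v → ¬ Dp p v :=
    fun v hv hd => hv ⟨p, Fact.out, hy, hd⟩
  have key : ∀ v : HeightOneSpectrum (𝓞 F), ¬ Sm y v →
      vl p v b * sy p ζ v c - vl p v c * sy p ζ v b = t v b c := by
    intro v hv
    rcases huv v hv with h | h
    · rw [h1 v b c hb hc, h5 v (hD v hv) b hb (vl_one p v b h) c hc, vl_one p v b h]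
      ring
    · rw [h5 v (hD v hv) c hc (vl_one p v c h) b hb, vl_one p v c h]
      ring
  have hfin : {v : HeightOneSpectrum (𝓞 F) | ¬ Sm y v ∧ (vl p v b ≠ 0 ∨ vl p v c ≠ 0)}.Finite := by
    refine ((fin_vl p b hb).union (fin_vl p c hc)).subset ?_
    rintro v ⟨_, h | h⟩
    · exact Or.inl h
    · exact Or.inr h
  refine ⟨hfin, ?_⟩
  have hs := (h3 b c hb hc).2
  have hz : ∑ᶠ v : {v : HeightOneSpectrum (𝓞 F) // ¬ Sm y v}, t v.1 b c = 0 := by
    have e1 : ∑ᶠ v : {v : HeightOneSpectrum (𝓞 F) // ¬ Sm y v}, t v.1 b c =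
        ∑ᶠ v ∈ {v : HeightOneSpectrum (𝓞 F) | ¬ Sm y v}, t v b c :=
      finsum_set_coe_eq_finsum_mem (f := fun v => t v b c) {v : HeightOneSpectrum (𝓞 F) | ¬ Sm y v}
    rw [e1, finsum_mem_def, Set.indicator_eq_self.2]
    · exact hs
    · intro v hv hS
      exact hv (h4 v b c (hN.2 v hS) hc)
  have f1 : (Function.support fun v : {v : HeightOneSpectrum (𝓞 F) // ¬ Sm y v} =>
      vl p v.1 b * sy p ζ v.1 c).Finite := by
    refine Set.Finite.subset ((fin_vl p b hb).preimage Subtype.val_injective.injOn) ?_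
    intro v hv h
    exact hv (by simp only [h, zero_mul])
  have f2 : (Function.support fun v : {v : HeightOneSpectrum (𝓞 F) // ¬ Sm y v} =>
      vl p v.1 c * sy p ζ v.1 b).Finite := by
    refine Set.Finite.subset ((fin_vl p c hc).preimage Subtype.val_injective.injOn) ?_
    intro v hv h
    exact hv (by simp only [h, zero_mul])
  rw [← sub_eq_zero, ← finsum_sub_distrib f1 f2, ← hz]
  exact finsum_congr fun v => key v.1 v.2

/-- **REC2** -/
theorem rec2 (_hB : S_BAS) (hH : S_HS22) : S_REC2 := by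
  intro F _ _ i ζ hi hζ
  obtain ⟨t, ht⟩ := hH F i ζ hi hζ
  exact rec_gen 2 F ζ t ht

end Pool.Agent.Q190.EN
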