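import Pool.Agent.Q283.EN.Stm2

/-!
# Project EN (helper283), job UNQ: uniqueness
-/

set_option autoImplicit false

namespace Pool.Agent.Q190.EN

open NumberField IsDedekindDomain
open Pool.Agent.Q283.LQ (Sm)
open Pool.Agent.Q7.LK
open Pool.Agent.Q283.EN

theorem mon_zero_eq {F : Type} [Field F] [NumberField F] {p f : ℕ} (u : Fin f → F) :
    mon u (0 : Fin f → ZMod p) = 1 := by
  unfold mon
  refine Finset.prod_eq_one fun l _ => ?_
  rw [Pi.zero_apply, ZMod.val_zero, pow_zero]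

/-- **UNQ** -/
theorem unq (hB : S_BAS) : S_UNQ := by
  intro p _ F _ _ ζ hbase
  have hp : p.Prime := Fact.out
  obtain ⟨y0, h0⟩ := hbase
  refine ⟨y0, fun y hy => ?_⟩
  obtain ⟨f, u, r, π, g, B, -⟩ := h0 y hy
  refine ⟨B.two, fun x hx hxv hxl => ?_, fun v hv => ?_⟩
  · obtain ⟨c, z, hz⟩ := B.full x hx hxv
    have hone : ∀ v : HeightOneSpectrum (𝓞 F), Lpw p v (1 : F) := by
      intro v
      have := (hB p F v).2.2.1 1 one_ne_zero
      rwa [one_pow] at this
    have hm : mon u c ≠ 0 := by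
      unfold mon
      exact Finset.prod_ne_zero_iff.2 fun l _ => pow_ne_zero _ (B.ue l)
    have hz0 : z ≠ 0 := by
      rintro rfl
      rw [zero_pow hp.ne_zero] at hz
      exact (mul_ne_zero hx hm) hz
    have hmu : mon u c = x⁻¹ * z ^ p := by
      rw [← hz, ← mul_assoc, inv_mul_cancel₀ hx, one_mul]
    have hN : Nn p y (mon u c) := by
      refine ⟨hm, fun v hv => ?_⟩
      rw [hmu]
      exact (hB p F v).2.1 _ _ ((hB p F v).2.2.2.1 x (hxl v hv)) ((hB p F v).2.2.1 z hz0)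
    have hu := B.cls 1 one_ne_zero
    have h1 : Nn p y (1 * mon r ((0 : Fin f → ZMod p), (0 : Fin f → ZMod p)).1 *
        mon u ((0 : Fin f → ZMod p), (0 : Fin f → ZMod p)).2) := by
      rw [mon_zero_eq, mon_zero_eq, one_mul, one_mul]
      exact ⟨one_ne_zero, fun v _ => hone v⟩
    have h2 : Nn p y (1 * mon r ((0 : Fin f → ZMod p), c).1 * mon u ((0 : Fin f → ZMod p), c).2) := by
      rw [mon_zero_eq, one_mul, one_mul]
      exact hN
    have h3 := hu.unique h1 h2
    have h4 : c = 0 := (congrArg Prod.snd h3).symm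
    rw [h4, mon_zero_eq, mul_one] at hz
    exact ⟨z, hz⟩
  · obtain ⟨h1, h2⟩ := B.po v hv
    refine ⟨π v, h1, ?_, fun w hw hwv => ?_⟩
    · rw [h2 v hv, if_pos rfl]
    · rw [h2 w hw, if_neg hwv]

end Pool.Agent.Q190.EN
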