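import Pool.Agent.Q283.EN.Stm2
import Pool.Agent.Q65.LK.LOCV
import Pool.Agent.Q285.CE.ESUM

/-!
# Project EN (helper283), job VAL: ramification above `p` and the sum of the local degrees
-/

set_option autoImplicit false

namespace Pool.Agent.Q190.EN

open NumberField IsDedekindDomain Finset
open Pool.Agent.Q7.LK
open Pool.Agent.Q283.EN
open Pool.Agent.Q65.LK (ord_above)
open Pool.Agent.Q285.CE (tot_cpx mem_over pnt finsum_dv)

section

variable {F : Type} [Field F] [NumberField F]

theorem val_pow_le (v : HeightOneSpectrum (𝓞 F)) (x : F) (hx : v.valuation F x ≤ 1) (j : ℕ) :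
    v.valuation F (1 - x ^ j) ≤ v.valuation F (1 - x) := by
  rw [← mul_neg_geom_sum x j, map_mul]
  refine mul_le_of_le_one_right' ?_
  refine Valuation.map_sum_le _ fun i _ => ?_
  rw [map_pow]
  exact pow_le_one' hx i

theorem exists_exp (v : HeightOneSpectrum (𝓞 F)) (x : F) (hx : x ≠ 0) :
    ∃ k : ℤ, v.valuation F x = WithZero.exp k := by
  have h : v.valuation F x ≠ 0 := (Valuation.ne_zero_iff _).2 hx
  exact ⟨_, (WithZero.exp_log h).symm⟩

theorem val_root (v : HeightOneSpectrum (𝓞 F)) (x : F) (hx : x ≠ 0) (n : ℕ) (hn : n ≠ 0)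
    (h : v.valuation F x ^ n = 1) : v.valuation F x = 1 := by
  obtain ⟨k, hk⟩ := exists_exp v x hx
  rw [hk, ← WithZero.exp_nsmul, ← WithZero.exp_zero, WithZero.exp_inj, nsmul_eq_mul] at h
  rcases mul_eq_zero.1 h with h | h
  · exact absurd (by exact_mod_cast h) hn
  · rw [hk, h, WithZero.exp_zero]

theorem even_exp (v : HeightOneSpectrum (𝓞 F)) (p : ℕ) (k : ℤ)
    (h : v.valuation F (p : F) = WithZero.exp (2 * k)) :
    ∃ e : ℕ, v.valuation F (p : F) = WithZero.exp (-(2 * (e : ℤ))) := by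
  have h1 : v.valuation F (p : F) ≤ 1 := by
    have h2 : v.valuation F (algebraMap (𝓞 F) F (p : 𝓞 F)) ≤ 1 := v.valuation_le_one _
    rwa [map_natCast] at h2
  rw [h, ← WithZero.exp_zero, WithZero.exp_le_exp] at h1
  refine ⟨(-k).toNat, ?_⟩
  rw [h]
  congr 1
  have h2 : ((-k).toNat : ℤ) = -k := Int.toNat_of_nonneg (by omega)
  rw [h2]
  ring

theorem even_ord (p : ℕ) [Fact p.Prime] (ζ : F) (hζ : IsPrimitiveRoot ζ p) (hi : Hi p F)
    (v : HeightOneSpectrum (𝓞 F)) :
    ∃ e : ℕ, v.valuation F (p : F) = WithZero.exp (-(2 * (e : ℤ))) := by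
  have hp : p.Prime := Fact.out
  by_cases hp2 : p = 2
  · obtain ⟨i, hi2⟩ := hi hp2
    have hi0 : i ≠ 0 := by
      rintro rfl
      norm_num at hi2
    have h1i : 1 + i ≠ 0 := by
      intro h
      have h1 : i = -1 := by linear_combination h
      rw [h1] at hi2
      norm_num at hi2
    obtain ⟨k, hk⟩ := exists_exp v (1 + i) h1i
    have hvi : v.valuation F i = 1 := by
      have h1 : v.valuation F i ^ 2 = 1 := by
        rw [← map_pow, hi2, Valuation.map_neg, map_one]
      exact val_root v i hi0 2 two_ne_zero h1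
    refine even_exp v p k ?_
    have h2 : (1 + i) ^ 2 = (p : F) * i := by
      rw [hp2]
      push_cast
      linear_combination hi2
    have h3 : v.valuation F ((1 + i) ^ 2) = v.valuation F ((p : F) * i) := by rw [h2]
    rw [map_pow, map_mul, hvi, mul_one, hk] at h3
    rw [← h3, ← WithZero.exp_nsmul]
    congr 1
  · obtain ⟨n, hn⟩ : ∃ n, p = n + 1 := ⟨p - 1, (Nat.sub_add_cancel hp.one_le).symm⟩
    have hodd := hp.odd_of_ne_two hp2
    obtain ⟨m, hm⟩ := hodd
    have hnm : n = 2 * m := by omega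
    have hζ' : IsPrimitiveRoot ζ (n + 1) := hn ▸ hζ
    have hz1 : v.valuation F ζ = 1 := by
      have h1 : v.valuation F ζ ^ p = 1 := by
        rw [← map_pow, hζ.pow_eq_one, map_one]
      exact val_root v ζ (hζ.ne_zero hp.ne_zero) p hp.ne_zero h1
    have h1 := hζ'.prod_one_sub_pow_eq_order
    have h10 : (1 : F) - ζ ≠ 0 := sub_ne_zero.2 (hζ.ne_one hp.one_lt).symm
    obtain ⟨k, hk⟩ := exists_exp v (1 - ζ) h10
    refine even_exp v p (m * k) ?_
    have h2 : ∀ j ∈ range n, v.valuation F (1 - ζ ^ (j + 1)) = v.valuation F (1 - ζ) := by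
      intro j hj
      refine le_antisymm (val_pow_le v ζ hz1.le _) ?_
      have hcop : Nat.Coprime (j + 1) p := by
        refine Nat.Coprime.symm ((Nat.Prime.coprime_iff_not_dvd hp).2 fun h => ?_)
        have h3 := Nat.le_of_dvd (Nat.succ_pos j) h
        have h4 := mem_range.1 hj
        omega
      obtain ⟨t, -, ht⟩ := Nat.exists_mul_mod_eq_one_of_coprime hcop hp.one_lt
      have h3 : (ζ ^ (j + 1)) ^ t = ζ := by
        rw [← pow_mul, ← Nat.div_add_mod ((j + 1) * t) p, ht, pow_add, pow_mul, hζ.pow_eq_one, one_pow, one_mul, pow_one]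
      have h4 := val_pow_le v (ζ ^ (j + 1)) (by rw [map_pow, hz1, one_pow]) t
      rwa [h3] at h4
    have h3 : (p : F) = ∏ k ∈ range n, (1 - ζ ^ (k + 1)) := by
      rw [h1, hn]
      push_cast
      ring
    rw [h3, map_prod, prod_congr rfl h2, prod_const, card_range, hk, hnm, ← WithZero.exp_nsmul]
    congr 1
    rw [nsmul_eq_mul]
    push_cast
    ring

theorem tot (p : ℕ) [Fact p.Prime] (ζ : F) (hζ : IsPrimitiveRoot ζ p) (hi : Hi p F) :
    IsTotallyComplex F := by
  by_cases hp2 : p = 2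
  · obtain ⟨i, hi⟩ := hi hp2
    refine ⟨fun w => ?_⟩
    rw [← InfinitePlace.not_isReal_iff_isComplex]
    intro hw
    have h3 : (InfinitePlace.embedding_of_isReal hw i) ^ 2 = -1 := by
      rw [← map_pow, hi, map_neg, map_one]
    nlinarith [sq_nonneg (InfinitePlace.embedding_of_isReal hw i)]
  · exact tot_cpx hp2 hζ

theorem ram_even (p : ℕ) [Fact p.Prime] (ζ : F) (hζ : IsPrimitiveRoot ζ p) (hi : Hi p F)
    (v : HeightOneSpectrum (𝓞 F)) (hv : Dp p v) :
    ∃ e : ℕ, v.valuation F (p : F) = WithZero.exp (-(2 * (e : ℤ))) ∧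
      v.asIdeal.ramificationIdx ℤ = 2 * e := by
  obtain ⟨e, he⟩ := even_ord p ζ hζ hi v
  refine ⟨e, he, ?_⟩
  have h1 := ord_above p v hv
  rw [he, WithZero.exp_inj] at h1
  omega

end

/-- **VAL** -/
theorem val : S_VAL := by
  intro p _ F _ _ ζ hζ hi
  have hp : p.Prime := Fact.out
  constructor
  · intro v
    by_cases hv : Dp p v
    · obtain ⟨e, he, hr⟩ := ram_even p ζ hζ hi v hv
      refine ⟨e, he, ?_⟩
      have hl := Pool.Agent.Q65.LK.lies p v hv
      have h3 : Ideal.absNorm v.asIdeal = p ^ v.asIdeal.inertiaDeg ℤ := by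
        have := v.isPrime
        exact (Ideal.pow_inertiaDeg p v.asIdeal).symm
      have h2 : dv p v = 2 * (e * v.asIdeal.inertiaDeg ℤ) := by
        unfold dv
        rw [if_pos hv, hr]
        ring
      rw [h2, Nat.mul_div_cancel_left _ two_pos, h3, ← pow_mul, mul_comm]
    · refine ⟨0, ?_, ?_⟩
      · have h4 : v.intValuation (p : 𝓞 F) = 1 := by
          rw [v.intValuation_eq_one_iff_mem_primeCompl]
          exact hv
        have h5 : v.valuation F (p : F) = v.intValuation (p : 𝓞 F) := by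
          rw [← v.valuation_of_algebraMap (K := F)]
          simp
        rw [h5, h4]
        simp
      · unfold dv
        rw [if_neg hv]
        simp
  · have htc : IsTotallyComplex F := tot p ζ hζ hi
    have : (Ideal.span {(p : ℤ)}).IsMaximal :=
      PrincipalIdealRing.isMaximal_of_irreducible (Nat.prime_iff_prime_int.1 (Fact.out : p.Prime)).irreducible
    have : (Ideal.span {(p : ℤ)}).IsPrime := Ideal.IsMaximal.isPrime inferInstance
    have : Finite ((Ideal.span {(p : ℤ)}).primesOver (𝓞 F)) :=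
      Algebra.QuasiFinite.finite_primesOver _
    have := Fintype.ofFinite ((Ideal.span {(p : ℤ)}).primesOver (𝓞 F))
    rw [finsum_dv]
    have htot := Ideal.sum_ramification_inertia_eq_finrank (Ideal.span {(p : ℤ)}) (𝓞 F)
    rw [RingOfIntegers.rank, IsTotallyComplex.finrank] at htot
    have h2 : ∑ q : (Ideal.span {(p : ℤ)}).primesOver (𝓞 F), q.1.ramificationIdx ℤ * q.1.inertiaDeg ℤ =
        2 * ∑ q : (Ideal.span {(p : ℤ)}).primesOver (𝓞 F), q.1.ramificationIdx ℤ * q.1.inertiaDeg ℤ / 2 := by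
      rw [Finset.mul_sum]
      refine Finset.sum_congr rfl fun q _ => ?_
      obtain ⟨e, -, hr⟩ := ram_even p ζ hζ hi (pnt q) (mem_over q)
      have hr' : q.1.ramificationIdx ℤ = 2 * e := hr
      rw [hr', mul_assoc, Nat.mul_div_cancel_left _ two_pos]
    rw [htot] at h2
    omega

end Pool.Agent.Q190.EN
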